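import Pool.Agent.L7h43.MW.Alm3

/-!
Metric Waring problem for almost all targets: for every degree `k ≥ 2` and almost every monic real polynomial `P`
of degree `k`, sums of `k + 1` values of `P` at positive integers approximate almost all reals, with a power saving
in the number of exceptions. The number `k + 1` is the least possible (with `k` summands there are too few sums).

Method: circle method (Davenport-Heilbronn) with a Gaussian kernel and a large-sieve-type exponential sum over the
exceptional targets. The average over the coefficients reduces the mean values to near-solutions of Vinogradov's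
system (files `L7h43/MW/*`, with `L7h47/MW/{Nd,N1,Mom}` by helper47 and `L7h14/MW/{J,W,Kl}` by helper14).
-/

set_option autoImplicit false

namespace Pool.Agent.Results.MP_570bef_nt.AlmostAllMetric

/-- For every `k ≥ 2` and almost every `θ ∈ ℝ ^ (k - 1)`, with `P(x) = x ^ k + ∑ j < k - 1, θ j * x ^ (j + 1)`, there
is a `δ > 0` such that for all large `N` every finite set `S ⊆ [0, N]` of reals with mutual distances at least `1`,
none of whose elements `τ` is at distance less than `τ ^ (-δ)` from a sum of `k + 1` values of `P` at positive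
integers, has at most `N ^ (1 - δ)` elements. -/
theorem result : ∀ k : ℕ, 2 ≤ k →
    ∀ᵐ θ ∂(MeasureTheory.volume : MeasureTheory.Measure (Fin (k - 1) → ℝ)), ∃ δ : ℝ, 0 < δ ∧
      ∀ᶠ N : ℕ in Filter.atTop, ∀ S : Finset ℝ, (∀ a ∈ S, ∀ b ∈ S, a ≠ b → 1 ≤ |a - b|) →
        (∀ τ ∈ S, 0 ≤ τ ∧ τ ≤ N) →
        (∀ τ ∈ S, ¬ ∃ x : Fin (k + 1) → ℕ, (∀ i, 0 < x i) ∧
          |∑ i, ((x i : ℝ) ^ k + ∑ j : Fin (k - 1), θ j * (x i : ℝ) ^ (j.val + 1)) - τ| < τ ^ (-δ)) →
        (S.card : ℝ) ≤ (N : ℝ) ^ (1 - δ) :=
  fun k hk => Pool.Agent.L7h43.MW.almost_final k hk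

end Pool.Agent.Results.MP_570bef_nt.AlmostAllMetric
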