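import Pool.Agent.L7h67.WA.Res2
import Pool.Agent.L7h22.WA.Fin2
import Pool.Agent.L7h37.WA.Mvb

set_option autoImplicit false

/-!
# Waring's problem with shifts: `2 k + 1` summands for almost every shift vector (MP_570bef_nt)

Let `k ≥ 2` and let `g_1, ..., g_(2k+1)` be real polynomials of degree `k` with positive leading
coefficients, for instance all equal to `X ^ k`. For almost every shift vector `θ` the sums
`∑ g_i (x_i - θ_i)`, `x_i > θ_i` positive integers, come within `τ ^ (-c)` of every large real `τ`,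
and every large integer is a sum `∑ ⌊g_i (x_i - θ_i)⌋`; with `k + 1` summands (and almost every
shift vector of length `k + 1`) all but `N ^ (1 - c)` of the integers up to `N` are represented.

Proof. Davenport-Heilbronn method with a Gaussian kernel.
* Mean values: the number of pairs `(x, y)` in a box of side `P` in `k` of the variables with
  `|∑ g_i (x_i - θ_i) - ∑ g_i (y_i - θ_i)| ≤ P ^ ε` is at most `P ^ (k + 3 ε)` for almost all `θ` and
  all large `P = 2 ^ l`: if `|x_j - y_j| = D` is maximal, the difference is a monotone function of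
  `θ_j` with derivative `≫ D P ^ (k - 2)`, and is small for some `θ` only if
  `|∑ g_i (x_i) - ∑ g_i (y_i)| ≪ D P ^ (k - 2 + ε)`; then count.
* Minor arcs: an inverse theorem for Weyl sums, applied twice (in degree `k`, and in degree `k - 1` to
  the sum over a residue class), shows that the sum over the last variable is at most `P ^ (1 - σ)` for
  `P ^ (1 / 2 - k) ≤ |β| ≤ P ^ σ` when `θ` is not very well approximable.
* The sum over the last variable is compared with the integral for all `|β| ≤ P ^ σ` at once, and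
  the main term is bounded from below by elementary means. In the second statement the exceptional
  set plays the role of the second block of variables.
-/

namespace Pool.Agent.Results.MP_570bef_nt.AlmostAllShifts

open MeasureTheory Filter Polynomial

theorem result : ∀ k : ℕ, 2 ≤ k → ∃ c : ℝ, 0 < c ∧
    (∀ g : Fin (2 * k + 1) → ℝ[X], (∀ i, (g i).natDegree = k ∧ 0 < (g i).leadingCoeff) →
      ∀ᵐ θ : Fin (2 * k + 1) → ℝ ∂volume,
      (∀ᶠ τ : ℝ in atTop, ∃ x : Fin (2 * k + 1) → ℕ, (∀ i, 1 ≤ x i ∧ θ i < x i) ∧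
        |∑ i, (g i).eval ((x i : ℝ) - θ i) - τ| < τ ^ (-c)) ∧
      (∀ᶠ n : ℕ in atTop, ∃ x : Fin (2 * k + 1) → ℕ, (∀ i, 1 ≤ x i ∧ θ i < x i) ∧
        ∑ i, ⌊(g i).eval ((x i : ℝ) - θ i)⌋ = (n : ℤ))) ∧
    (∀ g : Fin (k + 1) → ℝ[X], (∀ i, (g i).natDegree = k ∧ 0 < (g i).leadingCoeff) →
      ∀ᵐ θ : Fin (k + 1) → ℝ ∂volume, ∀ᶠ N : ℕ in atTop,
      ∀ Z : Finset ℕ, (∀ n ∈ Z, n ≤ N) →
        (∀ n ∈ Z, ¬ ∃ x : Fin (k + 1) → ℕ, (∀ i, 1 ≤ x i ∧ θ i < x i) ∧
          ∑ i, ⌊(g i).eval ((x i : ℝ) - θ i)⌋ = (n : ℤ)) →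
        (Z.card : ℝ) ≤ (N : ℝ) ^ (1 - c)) :=
  Pool.Agent.L7h67.WA.main2 Pool.Agent.L7h37.WA.s_MVB Pool.Agent.L7h22.WA.s_GM
    (Pool.Agent.L7h22.WA.s_FIN2 Pool.Agent.L7h37.WA.s_CORE Pool.Agent.L7h67.WA.s_SUP)
    Pool.Agent.L7h22.WA.s_DIO

end Pool.Agent.Results.MP_570bef_nt.AlmostAllShifts
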