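import Pool.Agent.L7h27.EX.Res
import Pool.Agent.L7h97.EX.Fine
import Pool.Agent.L7h97.EX.Fine2
import Pool.Agent.L7h37.EX.Sup
import Pool.Agent.L7h37.EX.Es
import Pool.Agent.L7h22.EX.Van
import Pool.Agent.L7h89.EX.Num
import Pool.Agent.L7h89.EX.Count
import Pool.Agent.L7h37.WB.Int

set_option autoImplicit false

/-!
# The linear bound in Waring's problem for almost every exponent (MP_570bef_nt)

For Lebesgue-almost every real `α > 1`:

* for every `s ≥ (4 log 2) α + 5` every sufficiently large integer `n` is a sum of `s` numbers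
  `⌊x ^ α⌋` with positive integers `x`;
* there is `c > 0` such that for every such `s` every sufficiently large real `τ` is at distance less
  than `τ ^ (-c)` from a sum of `s` numbers `x ^ α` with positive integers `x`, and such that for every
  `s ≥ (2 log 2) α + 3` and all large `N` at most `N ^ (1 - c)` integers `n ≤ N` are not sums of `s`
  numbers `⌊x ^ α⌋` with positive integers `x`.

Only the exponent is averaged over; the summands are the powers themselves.

Method.
* A block consists of `J` pairs of variables, `J = ⌈α log 2⌉`, the `i`-th pair in two separated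
  intervals of the size `Q_i = P ^ (r ^ i)`, with `r` slightly smaller than `1 - 1 / α`. Let `f (α)` be
  the difference of the sums of `α`-th powers at two points of the block. Then `f'` is the same sum with
  the weights `log x`, and `f'' ≪ P ^ (α + ε)`. A window of length `Δ = min (1, T / P ^ (α + ε))` which
  contains a point with `|f| ≤ P ^ ε`, `|f'| ~ T` satisfies `|f| ≪ T Δ`, `|f'| ≪ T` throughout, and
  only a part of measure `≪ P ^ ε / T` of it satisfies `|f| ≤ P ^ ε`. So it is enough to count, for EACH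
  exponent, the solutions of the two inequalities.
* One pair of variables of size `Q` is determined by the two inequalities up to
  `(1 + V / Q ^ (α - 1)) (1 + V / Q ^ (α - 1) + T / Q ^ (α - 1))` possibilities, because
  `x ^ α - γ x ^ α log x`, `1 / γ = log (6 Q) + 1 / α`, increases on `[Q, 4 Q]` and decreases on
  `[8 Q, 32 Q]` (`S_PAIRX`). The product over the levels is what is needed as soon as
  `(1 - 1 / α) ^ J ≤ 1 / 2` (`S_NUMX`).
* Borel-Cantelli gives the optimal mean value for almost every exponent. The Davenport-Heilbronn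
  method with a Gaussian kernel, one more variable and the van der Corput estimates for the phase
  `β x ^ α`, `α` not an integer, gives the theorem.
-/

open Finset MeasureTheory Filter

theorem Pool.Agent.Results.MP_570bef_nt.AlmostEveryExponent.result :
    ∀ᵐ α : ℝ, 1 < α →
      (∀ s : ℕ, 4 * Real.log 2 * α + 5 ≤ s → ∀ᶠ n : ℕ in atTop,
        ∃ x : Fin s → ℕ, (∀ i, 1 ≤ x i) ∧ ∑ i, ⌊(x i : ℝ) ^ α⌋₊ = n) ∧
      ∃ c : ℝ, 0 < c ∧
      (∀ s : ℕ, 4 * Real.log 2 * α + 5 ≤ s → ∀ᶠ τ : ℝ in atTop,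
        ∃ x : Fin s → ℕ, (∀ i, 1 ≤ x i) ∧ |∑ i, (x i : ℝ) ^ α - τ| < τ ^ (-c)) ∧
      (∀ s : ℕ, 2 * Real.log 2 * α + 3 ≤ s → ∀ᶠ N : ℕ in atTop,
        ({n : ℕ | n ≤ N ∧ ¬ ∃ x : Fin s → ℕ, (∀ i, 1 ≤ x i) ∧
          ∑ i, ⌊(x i : ℝ) ^ α⌋₊ = n}.ncard : ℝ) ≤ (N : ℝ) ^ (1 - c)) :=
  Pool.Agent.L7h27.EX.main_of
    (Pool.Agent.L7h27.EX.mvx_of Pool.Agent.L7h89.EX.s_COUNTX Pool.Agent.L7h89.EX.s_NUMX
      Pool.Agent.L7h37.WB.s_INT)
    (Pool.Agent.L7h37.EX.s_SUPX Pool.Agent.L7h37.EX.s_ESX Pool.Agent.L7h22.EX.s_VANX)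
    Pool.Agent.L7h97.EX.s_FINEX
    (Pool.Agent.L7h97.EX.s_FINE2X Pool.Agent.L7h37.EX.s_COREX)
    Pool.Agent.L7h97.EX.s_GMBX
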