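import Pool.Agent.L7h67.WB.Res
import Pool.Agent.L7h67.WB.Fine
import Pool.Agent.L7h67.WB.MvsC
import Pool.Agent.L7h97.WB.Fine2
import Pool.Agent.L7h97.WB.Gmb
import Pool.Agent.L7h89.WB.Num
import Pool.Agent.L7h89.WB.Pair
import Pool.Agent.L7h37.WB.Int
import Pool.Agent.L7h22.WB.Fam
import Pool.Agent.L7h22.WA.Dio

set_option autoImplicit false

/-!
# Waring's problem with one common shift: `2.8 k + 14` summands for almost every shift (MP_570bef_nt)

Let `k ≥ 5` and let `g` be a real polynomial of degree `k` with positive leading coefficient, for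
instance `X ^ k`. For almost every real `θ` every large integer is a sum of `4 J + 1` numbers
`⌊g (x - θ)⌋`, `x` positive integers, `J = ⌈(7 k + 23) / 10⌉`, and almost every integer (with a power
saving) is a sum of `2 J + 1` of them. The same holds for the numbers `⌊g x + θ x ^ (k - 1)⌋`.

Here only ONE real parameter is averaged over (in the earlier metric results there are `k - 1` or
`2 k + 1` of them), and the mechanism is different.
* A block consists of `J` pairs of variables of the sizes `Q_i = P ^ (ρ ^ i)`, `ρ = (k - 2) / (k - 1)`,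
  in separated intervals. Let `f (θ)` be the difference of the values of the form at two points of the
  block. The pairs with `|f (θ)| ≤ P ^ ε` for a `θ` with `|f' (θ)| ~ T` satisfy two inequalities,
  `|f| ≪ T Δ` and `|f'| ≪ T`, in a whole window of length `Δ = min (1, T / P ^ (k - 2))` around `θ`
  (as `f'' ≪ P ^ (k - 2)`), and such a window contains a set of measure `≪ P ^ ε / T` only with
  `|f (θ)| ≤ P ^ ε`. So it is enough to count, for EACH `θ`, the solutions of the two inequalities.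
* For the sizes with `Q_i ^ (k - 2) ≥ T` a pair of variables is determined by the two inequalities, for
  the smaller sizes one variable by the first one. The exponents add up to what is needed,
  exactly because the two inequalities together are worth `k + (k - 1)` of which less than `k - 1`
  is lost (`S_NUM`); a single inequality would never suffice with `O(k)` variables.
* Borel-Cantelli, and the Davenport-Heilbronn method as in `AlmostAllShifts`.
-/

namespace Pool.Agent.Results.MP_570bef_nt.OneCommonShift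

open MeasureTheory Filter Polynomial

theorem result : ∀ k : ℕ, 5 ≤ k → ∃ c : ℝ, 0 < c ∧ ∀ J : ℕ, 7 * k + 23 ≤ 10 * J →
    ∀ g : ℝ[X], g.natDegree = k → 0 < g.leadingCoeff → ∀ᵐ θ : ℝ ∂volume,
    ∀ φ : ℝ → ℝ, (φ = (fun x => g.eval (x - θ)) ∨ φ = (fun x => g.eval x + θ * x ^ (k - 1))) →
    ∀ M : ℕ,
      (∀ᶠ n : ℕ in atTop, ∃ x : Fin (4 * J + 1) → ℕ, (∀ i, M ≤ x i) ∧
        ∑ i, ⌊φ (x i : ℝ)⌋ = (n : ℤ)) ∧
      (∀ᶠ τ : ℝ in atTop, ∃ x : Fin (4 * J + 1) → ℕ, (∀ i, M ≤ x i) ∧
        |∑ i, φ (x i : ℝ) - τ| < τ ^ (-c)) ∧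
      (∀ᶠ N : ℕ in atTop, ∀ Z : Finset ℕ, (∀ n ∈ Z, n ≤ N) →
        (∀ n ∈ Z, ¬ ∃ x : Fin (2 * J + 1) → ℕ, (∀ i, M ≤ x i) ∧ ∑ i, ⌊φ (x i : ℝ)⌋ = (n : ℤ)) →
        (Z.card : ℝ) ≤ (N : ℝ) ^ (1 - c)) := by
  intro k hk
  have hcount : Pool.Agent.L7h67.WB.S_COUNT := Pool.Agent.L7h89.WB.s_COUNT
  have hGMB : Pool.Agent.L7h67.WB.S_GMB := Pool.Agent.L7h97.WB.s_GMB
  obtain ⟨c, hc, h⟩ := Pool.Agent.L7h67.WB.shift_of
    (Pool.Agent.L7h67.WB.mvs_of hcount Pool.Agent.L7h89.WB.s_NUM Pool.Agent.L7h37.WB.s_INT)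
    (Pool.Agent.L7h67.WB.fine_of Pool.Agent.L7h97.WB.s_GIL)
    (Pool.Agent.L7h97.WB.s_FINE2 Pool.Agent.L7h37.WA.s_CORE Pool.Agent.L7h67.WA.s_SUP)
    hGMB Pool.Agent.L7h89.WB.s_NUMJ Pool.Agent.L7h22.WB.s_FAMS Pool.Agent.L7h22.WB.s_FAML
    Pool.Agent.L7h22.WA.s_DIO k hk
  refine ⟨c, hc, fun J hJ g hg hl => ?_⟩
  obtain ⟨h1, h2⟩ := h J hJ g hg hl
  filter_upwards [h1, h2] with θ hθ1 hθ2 φ hφ
  rcases hφ with rfl | rfl
  · exact hθ1
  · exact hθ2

end Pool.Agent.Results.MP_570bef_nt.OneCommonShift
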